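import Pool.Agent.Q5.SG.Stm

/-! # Project SG (helper5), job RC: roots of close units -/

set_option autoImplicit false

namespace Pool.Agent.Q241.SG

open NumberField IsDedekindDomain Pool.Agent.Y18.LC Pool.Agent.Q5.SG

theorem rc : J_RC := by
  intro hSM hRT p _ K H _ _ _ _ _ hU S n ω h
  rw [mem_CU] at h ⊢
  obtain ⟨h1, h2⟩ := h
  have hω : ω ∈ EU H := of_pow_EU (pow_pos (Fact.out : p.Prime).pos n) h1
  refine ⟨hω, ?_⟩
  intro σ hσ
  have h3 := h2 σ hσ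
  rw [pow_one] at h3 ⊢
  have hp1 : (p : ℝ)⁻¹ < 1 := inv_lt_one_of_one_lt₀ (by exact_mod_cast (Fact.out : p.Prime).one_lt)
  have h4 : ‖σ (ω : H) ^ p ^ n - 1‖ < 1 := by
    have h5 : σ ((ω ^ p ^ n : Hˣ) : H) = σ (ω : H) ^ p ^ n := by
      rw [Units.val_pow_eq_pow_val, map_pow]
    rw [← h5]
    exact lt_of_le_of_lt h3 hp1
  have h6 : ‖σ (ω : H) - 1‖ < 1 := hRT p (σ (ω : H)) (norm_eq_one_of_EU σ hω).le n h4
  have h7 := hSM p H hU σ ((ω : H) - 1) (by rw [map_sub, map_one]; exact h6)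
  rwa [map_sub, map_one] at h7

end Pool.Agent.Q241.SG
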